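import Pool.Agent.Helper55.UV.Crit
import Pool.Agent.Helper55.TT.FinC

/-!
# The uniform theorem
-/

set_option autoImplicit false
set_option linter.all false

open Polynomial IsDedekindDomain NumberField
open scoped Classical

namespace Pool.Agent.Helper55.UV

open Pool.Agent Pool.Agent.TH115.GD Pool.Agent.R939.EI Pool.Agent.R939.PP Pool.Agent.R939.HI
  Pool.Agent.W275.UB Pool.Agent.Helper55.TT Pool.Agent.H927R2.RD

section defs

variable {k : Type} [Field k]

/-- The image of `ρ` modulo 2 is a 2-group: the order of each of its elements is a power of 2. -/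
def IsPro2 {Γ : Type} [Group Γ] {d : ℕ} (ρ : Γ →* GL (Fin d) ℤ_[2]) : Prop :=
  ∀ σ, ∃ m : ℕ, ∀ i j, (2 : ℤ_[2]) ∣ ((ρ (σ ^ 2 ^ m)).1 - 1) i j

/-- `ρ` is not ramified outside of the roots of `p` and infinity. -/
def UnramOutside (k' : Type) {K F : Type} [Field k'] [Algebra k k'] [Field K] [Field F]
    [Algebra k'[X] F] [IsFractionRing k'[X] F] [Algebra K F] (p : k[X]) {d : ℕ}
    (ρ : (Sep F ≃ₐ[K] Sep F) →* GL (Fin d) ℤ_[2]) : Prop :=
  ∀ v : HeightOneSpectrum k'[X], p.map (algebraMap k k') ∉ v.asIdeal → Unram k' ρ v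

/-- The inertia groups at the roots of `π` have no nonzero invariants. -/
def NoInvAtRoots (k' : Type) {K F : Type} [Field k'] [Algebra k k'] [Field K] [Field F]
    [Algebra k'[X] F] [IsFractionRing k'[X] F] [Algebra K F] (π : k[X]) {d : ℕ}
    (ρ : (Sep F ≃ₐ[K] Sep F) →* GL (Fin d) ℤ_[2]) : Prop :=
  ∀ θ : k', aeval θ π = 0 → NoInv k' ρ (pl θ)

/-- `c` is locally trivial at the roots of `π`, and outside of the roots of `p` and infinity. -/
def LocTrivial (k' : Type) {K F : Type} [Field k'] [Algebra k k'] [Field K] [Field F]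
    [Algebra k'[X] F] [IsFractionRing k'[X] F] [Algebra K F] (p π : k[X]) {d : ℕ}
    (ρ : (Sep F ≃ₐ[K] Sep F) →* GL (Fin d) ℤ_[2]) (c : (Sep F ≃ₐ[F] Sep F) → Fin d → ℚ_[2]) : Prop :=
  (∀ v : HeightOneSpectrum k'[X], p.map (algebraMap k k') ∉ v.asIdeal → LocCob k' ρ c v) ∧
  ∀ θ : k', aeval θ π = 0 → LocCob k' ρ c (pl θ)

/-- `c` is a coboundary. -/
def IsCob {K F : Type} [Field K] [Field F] [Algebra K F] {d : ℕ}
    (ρ : (Sep F ≃ₐ[K] Sep F) →* GL (Fin d) ℤ_[2]) (c : (Sep F ≃ₐ[F] Sep F) → Fin d → ℚ_[2]) : Prop :=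
  ∃ y : Fin d → ℚ_[2], ∀ σ, c σ = ac ρ (σ.restrictScalars K) y - y

/-- `c` is a continuous cocycle of the Galois group of `F` with values in `ℚ₂ ^ d`, and its class is
fixed by the Galois group of `K`. -/
def IsFixedClass {K F : Type} [Field K] [Field F] [Algebra K F] {d : ℕ}
    (ρ : (Sep F ≃ₐ[K] Sep F) →* GL (Fin d) ℤ_[2]) (c : (Sep F ≃ₐ[F] Sep F) → Fin d → ℚ_[2]) : Prop :=
  Continuous c ∧ IsCo (rH K F (Sep F)) (ac ρ) c ∧ IsInvt (rH K F (Sep F)) (ac ρ) c

/-- Let `F = k'(t)` and `K = k(t)`. `Vanish k' K F p π`: let `ρ` be any continuous representation of the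
Galois group of `K` in `GL_d(ℤ₂)` (any `d`), whose image modulo 2 is a 2-group, which is not ramified
outside of the roots of `p` and infinity, and such that the inertia groups at the roots of `π` have
no nonzero invariants in `ℚ₂ ^ d`. Then there are no nonzero classes in `H¹(F, ℚ₂ ^ d)` which are fixed
by the Galois group of `K` and locally trivial at the roots of `π` and at the places which are not roots
of `p` or infinite. -/
def Vanish (k' K F : Type) [Field k'] [Algebra k k'] [Field K]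
    [Field F] [Algebra k'[X] F] [IsFractionRing k'[X] F] [Algebra K F] (p π : k[X]) : Prop :=
  ∀ (d : ℕ) (ρ : (Sep F ≃ₐ[K] Sep F) →* GL (Fin d) ℤ_[2]), Continuous ρ → IsPro2 ρ →
    UnramOutside k' p ρ → NoInvAtRoots k' π ρ →
    ∀ c : (Sep F ≃ₐ[F] Sep F) → Fin d → ℚ_[2], IsFixedClass ρ c → LocTrivial k' p π ρ c → IsCob ρ c

/-- The statement for the polynomials `D l`, `l : Fin u`. -/
def VanishAll (k' K F : Type) {k : Type} [Field k] [NumberField k] [Field k'] [Algebra k k'] [Field K]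
    [Algebra k[X] K] [Field F] [Algebra k'[X] F] [IsFractionRing k'[X] F] [Algebra K F]
    (P : k[X]) {u : ℕ} (D : Fin u → k[X]) : Prop :=
  ∀ (h : k[X]), Odd h.natDegree → (∀ q : k[X], Irreducible q → q ∣ P → Irreducible (q.comp h)) →
    ((∃ g : (𝓞 k)[X], g.Monic ∧ h = g.map (algebraMap (𝓞 k) k)) ∨
      ∀ l, Irreducible ((D l).comp h)) →
    ∀ l₀, 3 ≤ (D l₀).natDegree →
      Vanish k' K F ((P * ∏ l, D l).comp h) ((D l₀).comp h)

end defs

section main

variable {k k' K F : Type} [Field k] [Field k'] [Algebra k k'] [Field K] [Algebra k[X] K]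
    [Field F] [Algebra k'[X] F] [IsFractionRing k'[X] F] [Algebra K F]

theorem vanish_good [NumberField k] (hT : IsTower k k' K F) {J : Type} [Fintype J]
    (ω : Module.Basis J ℤ (𝓞 k)) {P : k[X]} (hP0 : P ≠ 0) {u : ℕ} {n : Fin u → ℕ}
    {x : (Σ l : Fin u, Fin (n l + 1)) × J → ℤ} (hx : ∀ l₀, 3 ≤ n l₀ → Good ω P l₀ x) :
    VanishAll k' K F P fun l => Dp ω x l := by
  classical
  intro h hodd hP hcase l₀ hl₀
  have hh := hodd.pos
  have hn0 : 3 ≤ n l₀ := hl₀.trans (by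
    exact polA_natDegree (fun j => kv ω x ⟨l₀, j⟩))
  have hx0 := hx l₀ hn0
  have hirr : ∀ l, Irreducible (Dp ω x l) := fun l => (hx0.irr l).1
  have hDh : ∀ l, Irreducible ((Dp ω x l).comp h) := by
    intro l
    rcases hcase with ⟨g, hg, rfl⟩ | h9
    · refine (hx0.irr l).2 g hg ?_
      intro h0
      rw [hg.natDegree_map, h0] at hodd
      exact absurd hodd (by decide)
    · exact h9 l
  have hD0 : ∏ l, Dp ω x l ≠ 0 := Finset.prod_ne_zero_iff.2 fun l _ => (hirr l).ne_zero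
  have hPD0 : P * ∏ l, Dp ω x l ≠ 0 := mul_ne_zero hP0 hD0
  have hin : Inert (P * ∏ l, Dp ω x l) h := by
    intro π hπ hdv
    have h1 : Irreducible (π.comp h) := by
      rcases hπ.prime.dvd_or_dvd hdv with h2 | h2
      · exact hP π hπ h2
      · obtain ⟨l, -, hl⟩ := (hπ.prime.dvd_finsetProd_iff _).1 h2
        have has : Associated (Dp ω x l) π := (hπ.associated_of_dvd (hirr l) hl).symm
        obtain ⟨w, hw⟩ := has
        rw [← hw, mul_comp]
        obtain ⟨c0, hc0, hc0'⟩ := Polynomial.isUnit_iff.1 w.isUnit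
        rw [← hc0', C_comp]
        exact (irreducible_mul_isUnit (isUnit_C.2 hc0)).2 (hDh l)
    exact ⟨h1, h1.separable⟩
  have hdv : Dp ω x l₀ ∣ P * ∏ l, Dp ω x l :=
    (Finset.dvd_prod_of_mem _ (Finset.mem_univ l₀)).mul_left _
  have hind := (hx0.indep ω hP0).comp (hirr l₀) hPD0 (one_ne_zero (α := k)) hodd hin hdv
  rw [C_1, one_mul] at hind
  intro d ρ hρ hp2 hun hno c hc hloc
  exact crit_abs hT two_ne_zero (comp_ne hh hPD0) (fun q hq _ => hq.separable) (hDh l₀)
    (hDh l₀).separable hind hρ hp2 hun hno hc.1 hc.2.1 hc.2.2 hloc.1 hloc.2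

/-- **The uniform theorem.** -/
theorem vanish_all [NumberField k] (hT : IsTower k k' K F) {J : Type} [Fintype J]
    (B : Module.Basis J ℤ (𝓞 k)) {P : k[X]} (hP : P ≠ 0) {u : ℕ} {n : Fin u → ℕ}
    (hn : ∀ l, 1 ≤ n l) {η : ℝ} (hη : 0 < η) :
    ∃ H0 : ℕ, ∀ H : ℕ, H0 ≤ H →
      (({x : (l : Fin u) → Fin (n l + 1) → 𝓞 k | (∀ l j t, |B.repr (x l j) t| ≤ (H : ℤ)) ∧
        ¬ VanishAll k' K F P (fun l => polA fun j => algebraMap (𝓞 k) k (x l j))}.ncard : ℕ) : ℝ) ≤
        η * (2 * H + 1) ^ (Fintype.card J * ∑ l, (n l + 1)) := by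
  classical
  have hD : D0 (⋃ l₀ ∈ ((Finset.univ : Finset (Fin u)).filter fun l => 3 ≤ n l),
      {x : (Σ l : Fin u, Fin (n l + 1)) × J → ℤ | ¬ Good B P l₀ x}) :=
    D0.biUnion _ _ fun l hl => dens_good (n := n) B l (Finset.mem_filter.1 hl).2 hn hP
  obtain ⟨H0, hH⟩ := hD η hη
  refine ⟨H0, fun H hHH => ?_⟩
  have h1 := hH H hHH
  have hcard : Fintype.card ((Σ l : Fin u, Fin (n l + 1)) × J) =
      Fintype.card J * ∑ l, (n l + 1) := by
    rw [Fintype.card_prod, Fintype.card_sigma, Nat.mul_comm]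
    simp
  rw [hcard] at h1
  refine le_trans ?_ h1
  let φ : ((l : Fin u) → Fin (n l + 1) → 𝓞 k) → ((Σ l : Fin u, Fin (n l + 1)) × J → ℤ) :=
    fun y o => B.repr (y o.1.1 o.1.2) o.2
  have hkv : ∀ y (o : Σ l : Fin u, Fin (n l + 1)), kv B (φ y) o =
      algebraMap (𝓞 k) k (y o.1 o.2) := by
    intro y o
    show algebraMap (𝓞 k) k (elt B fun j => B.repr (y o.1 o.2) j) = _
    rw [← basis_elt B]
  have hinj : Function.Injective φ := by
    intro y z hyz
    funext l j
    apply FaithfulSMul.algebraMap_injective (𝓞 k) k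
    have h3 := hkv y ⟨l, j⟩
    rw [hyz, hkv z ⟨l, j⟩] at h3
    exact h3.symm
  have h4 : (Set.ncard {x : (l : Fin u) → Fin (n l + 1) → 𝓞 k |
      (∀ l j t, |B.repr (x l j) t| ≤ (H : ℤ)) ∧
        ¬ VanishAll k' K F P (fun l => polA fun j => algebraMap (𝓞 k) k (x l j))}) ≤
      Set.ncard {v : (Σ l : Fin u, Fin (n l + 1)) × J → ℤ |
        v ∈ (⋃ l₀ ∈ ((Finset.univ : Finset (Fin u)).filter fun l => 3 ≤ n l),
          {x : (Σ l : Fin u, Fin (n l + 1)) × J → ℤ | ¬ Good B P l₀ x}) ∧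
          ∀ i, |v i| ≤ (H : ℤ)} := by
    rw [← Set.ncard_image_of_injective _ hinj]
    refine Set.ncard_le_ncard ?_ (box_fin _ H)
    rintro _ ⟨y, ⟨b1, hbad⟩, rfl⟩
    refine ⟨?_, ?_⟩
    · by_contra hgood
      simp only [Set.mem_iUnion, exists_prop, not_exists, not_and, Finset.mem_filter,
        Finset.mem_univ, true_and, Set.mem_setOf_eq, not_not] at hgood
      apply hbad
      have h5 := vanish_good (k' := k') (K := K) (F := F) hT B hP (x := φ y) hgood
      simp only [Dp, hkv] at h5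
      exact h5
    · rintro ⟨⟨l, j⟩, t⟩
      exact b1 l j t
  exact_mod_cast h4

end main

end Pool.Agent.Helper55.UV
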