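import Pool.Agent.Helper55.UV.Lat

/-!
# The descent, and the continuity of the extension of an invariant class
-/

set_option autoImplicit false
set_option linter.all false

open scoped Classical

namespace Pool.Agent.Helper55.UV

section desc

variable {Γ : Type} [Group Γ] {d : ℕ} {ρ : Γ →* GL (Fin d) ℤ_[2]}

theorem desc_all (hp2 : ∀ σ, ∃ m : ℕ, ∀ i j, ‖((ρ (σ ^ 2 ^ m)).1 - 1) i j‖ ≤ (2 : ℝ) ^ (-((1 : ℕ) : ℤ)))
    {C : Γ → Fin d → ℚ_[2]} (hC : IsCoG (ac ρ) C) {m₀ : ℤ} (h0 : ∀ σ, C σ ∈ Lt d m₀)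
    (hchar : ∀ m, m₀ ≤ m → ∀ χ : Γ → ZMod 2, (∀ σ τ, χ (σ * τ) = χ σ + χ τ) →
      (∀ σ, C σ ∈ Lt d (m + 1) → χ σ = 0) → ∀ σ, χ σ = 0) (σ : Γ) : C σ = 0 := by
  have key : ∀ n : ℕ, ∀ σ, C σ ∈ Lt d (m₀ + n) := by
    intro n
    induction n with
    | zero => simpa using h0
    | succ n ih =>
      have h1 := desc_aux (T0 := Lt d (m₀ + n)) (T1 := Lt d (m₀ + n + 1)) hC
        (fun v hv => double_mem hv) (fun σ v hv => ac_mem ρ σ hv)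
        (fun σ => by
          obtain ⟨m, hm⟩ := hp2 σ
          exact ⟨m, fun v hv => ac_sub_mem ρ hm hv⟩)
        (hchar (m₀ + n) (by omega)) _ (Lt d (m₀ + n)) (Lt_anti (by omega)) le_rfl
        (fun σ v hv => ac_mem ρ σ hv) rfl (relIndex_ne _) ih
      intro σ
      have h3 := h1 σ
      rwa [add_assoc] at h3
  refine eq_zero_of_mem (m₀ := m₀) fun m hm => ?_
  obtain ⟨n, hn⟩ := Int.eq_ofNat_of_zero_le (sub_nonneg.2 hm)
  have h1 := key n σ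
  have e : m₀ + (n : ℤ) = m := by omega
  rwa [e] at h1

end desc

section inv

variable {N : Type} {d : ℕ}

/-- finitely many elements are enough -/
theorem fin_inv (a : N → (Fin d → ℚ_[2]) →ₗ[ℚ_[2]] (Fin d → ℚ_[2])) {I : Set N}
    (h : ∀ y, (∀ σ ∈ I, a σ y = y) → y = 0) :
    ∃ (e : ℕ) (s : Fin e → N), (∀ i, s i ∈ I) ∧ ∀ y, (∀ i, a (s i) y = y) → y = 0 := by
  let W : List N → Submodule ℚ_[2] (Fin d → ℚ_[2]) := fun l =>
    { carrier := {y | ∀ σ ∈ l, a σ y = y}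
      zero_mem' := fun σ _ => map_zero _
      add_mem' := fun {x y} hx hy σ hσ => by rw [map_add, hx σ hσ, hy σ hσ]
      smul_mem' := fun c x hx σ hσ => by rw [map_smul, hx σ hσ] }
  have hex : ∃ n : ℕ, ∃ l : List N, (∀ σ ∈ l, σ ∈ I) ∧ Module.finrank ℚ_[2] (W l) = n :=
    ⟨_, [], by simp, rfl⟩
  obtain ⟨l, hl, hn⟩ := Nat.find_spec hex
  have hmin : ∀ l' : List N, (∀ σ ∈ l', σ ∈ I) →
      Module.finrank ℚ_[2] (W l) ≤ Module.finrank ℚ_[2] (W l') := by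
    intro l' hl'
    rw [hn]
    exact Nat.find_min' hex ⟨l', hl', rfl⟩
  have hbot : ∀ y, (∀ σ ∈ l, a σ y = y) → y = 0 := by
    intro y hy
    apply h
    intro σ hσ
    have h1 : W (σ :: l) ≤ W l := fun z hz τ hτ => hz τ (List.mem_cons_of_mem _ hτ)
    have h2 : W (σ :: l) = W l := by
      apply Submodule.eq_of_le_of_finrank_le h1
      apply hmin
      intro τ hτ
      rcases List.mem_cons.1 hτ with h3 | h3
      · rw [h3]; exact hσ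
      · exact hl τ h3
    have h3 : y ∈ W l := hy
    rw [← h2] at h3
    exact h3 σ (List.mem_cons_self ..)
  refine ⟨l.length, l.get, fun i => hl _ (List.get_mem _ _), fun y hy => hbot y fun σ hσ => ?_⟩
  obtain ⟨i, rfl⟩ := List.get_of_mem hσ
  exact hy i

theorem exists_left (a : N → (Fin d → ℚ_[2]) →ₗ[ℚ_[2]] (Fin d → ℚ_[2])) {I : Set N}
    (h : ∀ y, (∀ σ ∈ I, a σ y = y) → y = 0) :
    ∃ (e : ℕ) (s : Fin e → N) (M : ℕ), (∀ i, s i ∈ I) ∧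
      ∀ (m : ℤ) (y : Fin d → ℚ_[2]), (∀ i, a (s i) y - y ∈ Lt d m) → y ∈ Lt d (m - M) := by
  obtain ⟨e, s, hs, hinj⟩ := fin_inv a h
  let Φ : (Fin d → ℚ_[2]) →ₗ[ℚ_[2]] (Fin e → Fin d → ℚ_[2]) :=
    LinearMap.pi fun i => a (s i) - LinearMap.id
  have hΦ : LinearMap.ker Φ = ⊥ := by
    rw [LinearMap.ker_eq_bot']
    intro y hy
    apply hinj
    intro i
    have h1 : a (s i) y - y = 0 := congrFun hy i
    exact sub_eq_zero.1 h1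
  obtain ⟨Ψ, hΨ⟩ := LinearMap.exists_leftInverse_of_injective Φ hΦ
  obtain ⟨M, hM⟩ := bounded Ψ
  refine ⟨e, s, M, hs, fun m y hy => ?_⟩
  have h1 := hM m (Φ y) hy
  have h2 : Ψ (Φ y) = y := LinearMap.congr_fun hΨ y
  rwa [h2] at h1

end inv

section gal

variable {K F Ω : Type} [Field K] [Field F] [Field Ω] [Algebra K F] [Algebra F Ω] [Algebra K Ω]
  [IsScalarTower K F Ω]

/-- The inclusion of `Gal(Ω / F)` in `Gal(Ω / K)`. -/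
def rH (K F Ω : Type) [Field K] [Field F] [Field Ω] [Algebra K F] [Algebra F Ω] [Algebra K Ω]
    [IsScalarTower K F Ω] : (Ω ≃ₐ[F] Ω) →* (Ω ≃ₐ[K] Ω) where
  toFun σ := σ.restrictScalars K
  map_one' := rfl
  map_mul' _ _ := rfl

theorem rH_apply (σ : Ω ≃ₐ[F] Ω) : rH K F Ω σ = σ.restrictScalars K := rfl

theorem rH_inj : Function.Injective (rH K F Ω) := by
  intro σ τ h
  ext x
  exact AlgEquiv.congr_fun h x

/-- a property of the elements near to `1` -/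
def Near {F Ω : Type} [Field F] [Field Ω] [Algebra F Ω] (P : (Ω ≃ₐ[F] Ω) → Prop) : Prop :=
  ∃ S : Set Ω, S.Finite ∧ ∀ τ : Ω ≃ₐ[F] Ω, (∀ x ∈ S, τ x = x) → P τ

theorem near_of_nhds {F Ω : Type} [Field F] [Field Ω] [Algebra F Ω] {P : (Ω ≃ₐ[F] Ω) → Prop}
    (h : {τ | P τ} ∈ nhds (1 : Ω ≃ₐ[F] Ω)) : Near P := by
  rw [krullTopology_mem_nhds_one_iff] at h
  obtain ⟨E, hE, hsub⟩ := h
  obtain ⟨b⟩ : Nonempty (Module.Basis (Fin (Module.finrank F E)) F E) := ⟨Module.finBasis F E⟩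
  refine ⟨Set.range fun i => (b i : Ω), Set.finite_range _, fun τ hτ => hsub ?_⟩
  rw [SetLike.mem_coe, IntermediateField.mem_fixingSubgroup_iff]
  intro x hx
  have h1 : ((τ : Ω →ₐ[F] Ω).toLinearMap ∘ₗ E.val.toLinearMap) = E.val.toLinearMap := by
    apply b.ext
    intro i
    exact hτ _ ⟨i, rfl⟩
  exact LinearMap.congr_fun h1 ⟨x, hx⟩

theorem near_rho {d : ℕ} {ρ : (Ω ≃ₐ[K] Ω) →* GL (Fin d) ℤ_[2]} (hρ : Continuous ρ) (n : ℕ) :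
    Near fun τ => ∀ i j, ‖((ρ τ).1 - 1) i j‖ ≤ (2 : ℝ) ^ (-(n : ℤ)) := by
  apply near_of_nhds
  have h1 : Continuous fun τ : Ω ≃ₐ[K] Ω => ((ρ τ).1 : Matrix (Fin d) (Fin d) ℤ_[2]) :=
    Units.continuous_val.comp hρ
  have h2 : ∀ i j, {τ : Ω ≃ₐ[K] Ω | ‖((ρ τ).1 - 1) i j‖ ≤ (2 : ℝ) ^ (-(n : ℤ))} ∈
      nhds (1 : Ω ≃ₐ[K] Ω) := by
    intro i j
    have h3 : Continuous fun τ : Ω ≃ₐ[K] Ω => ‖((ρ τ).1 - 1) i j‖ :=
      ((h1.sub continuous_const).matrix_elem i j).norm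
    have h4 : {τ : Ω ≃ₐ[K] Ω | ‖((ρ τ).1 - 1) i j‖ < (2 : ℝ) ^ (-(n : ℤ))} ∈
        nhds (1 : Ω ≃ₐ[K] Ω) := by
      apply (isOpen_lt h3 continuous_const).mem_nhds
      show ‖((ρ 1).1 - 1) i j‖ < _
      rw [map_one, Units.val_one, sub_self, Matrix.zero_apply, norm_zero]
      positivity
    refine Filter.mem_of_superset h4 fun τ hτ => ?_
    have h5 : ‖((ρ τ).1 - 1) i j‖ < (2 : ℝ) ^ (-(n : ℤ)) := hτ
    exact h5.le
  have h3 : {τ : Ω ≃ₐ[K] Ω | ∀ i j, ‖((ρ τ).1 - 1) i j‖ ≤ (2 : ℝ) ^ (-(n : ℤ))} =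
      ⋂ i, ⋂ j, {τ : Ω ≃ₐ[K] Ω | ‖((ρ τ).1 - 1) i j‖ ≤ (2 : ℝ) ^ (-(n : ℤ))} := by
    ext τ
    simp
  rw [h3]
  exact (Filter.iInter_mem.2 fun i => Filter.iInter_mem.2 fun j => h2 i j)

theorem near_co {d : ℕ} {c : (Ω ≃ₐ[F] Ω) → Fin d → ℚ_[2]} (hc : Continuous c) (h1 : c 1 = 0)
    (m : ℤ) : Near fun τ => c τ ∈ Lt d m := by
  apply near_of_nhds
  have h4 : {τ : Ω ≃ₐ[F] Ω | ‖c τ‖ < (2 : ℝ) ^ (-m)} ∈ nhds (1 : Ω ≃ₐ[F] Ω) := by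
    apply (isOpen_lt hc.norm continuous_const).mem_nhds
    show ‖c 1‖ < _
    rw [h1, norm_zero]
    positivity
  refine Filter.mem_of_superset h4 fun τ hτ => ?_
  exact mem_Lt_norm.2 (le_of_lt hτ)

variable {d : ℕ} {ρ : (Ω ≃ₐ[K] Ω) →* GL (Fin d) ℤ_[2]}

/-- the action on `ℚ₂ ^ d` as linear maps -/
noncomputable def acl (ρ : (Ω ≃ₐ[K] Ω) →* GL (Fin d) ℤ_[2]) (σ : Ω ≃ₐ[F] Ω) :
    (Fin d → ℚ_[2]) →ₗ[ℚ_[2]] (Fin d → ℚ_[2]) :=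
  Matrix.mulVecLin ((ρ (rH K F Ω σ)).1.map (algebraMap ℤ_[2] ℚ_[2]))

/-- The extension of an invariant class is continuous. -/
theorem near_C (hρ : Continuous ρ) {c : (Ω ≃ₐ[F] Ω) → Fin d → ℚ_[2]}
    (hc : IsCo (rH K F Ω) (ac ρ) c) (hcc : Continuous c) {C : (Ω ≃ₐ[K] Ω) → Fin d → ℚ_[2]}
    (hconj : ∀ (τ : Ω ≃ₐ[K] Ω) (σ : Ω ≃ₐ[F] Ω), ∃ σ' : Ω ≃ₐ[F] Ω,
      τ * rH K F Ω σ' = rH K F Ω σ * τ)
    (hrel : ∀ (τ : Ω ≃ₐ[K] Ω) (σ σ' : Ω ≃ₐ[F] Ω), τ * rH K F Ω σ' = rH K F Ω σ * τ →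
      ac ρ τ (c σ') - c σ = ac ρ (rH K F Ω σ) (C τ) - C τ) {I : Set (Ω ≃ₐ[F] Ω)}
    (hI : ∀ y : Fin d → ℚ_[2], (∀ σ ∈ I, ac ρ (rH K F Ω σ) y = y) → y = 0) (m : ℤ) :
    Near fun τ => C τ ∈ Lt d m := by
  have hc1 : c 1 = 0 := by
    have h := hc 1 1
    rw [mul_one, map_one, map_one] at h
    have h2 : (1 : AddMonoid.End (Fin d → ℚ_[2])) (c 1) = c 1 := rfl
    rw [h2] at h
    exact left_eq_add.1 h
  obtain ⟨e, s, M, hs, hM⟩ := exists_left (fun σ => acl (F := F) ρ σ) (I := I) hI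
  obtain ⟨S₂, hS₂, hS₂c⟩ := near_co hcc hc1 (m + M)
  choose μ hμ using fun i => exists_mem_Lt (c (s i))
  obtain ⟨n, hn⟩ : ∃ n : ℕ, ∀ i, m + M ≤ μ i + n := by
    refine ⟨∑ i, (m + M - μ i).toNat, fun i => ?_⟩
    have h1 : (m + M - μ i).toNat ≤ ∑ i, (m + M - μ i).toNat :=
      Finset.single_le_sum (f := fun i => (m + M - μ i).toNat) (fun _ _ => Nat.zero_le _)
        (Finset.mem_univ i)
    have h2 := Int.self_le_toNat (m + M - μ i)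
    have h3 : ((m + M - μ i).toNat : ℤ) ≤ ((∑ i, (m + M - μ i).toNat : ℕ) : ℤ) := by
      exact_mod_cast h1
    linarith
  obtain ⟨S₁, hS₁, hS₁ρ⟩ := near_rho hρ n
  refine ⟨S₁ ∪ S₂ ∪ ⋃ i, s i '' S₂, (hS₁.union hS₂).union
    (Set.finite_iUnion fun i => hS₂.image _), fun τ hτ => ?_⟩
  have e0 : m = m + M - M := by ring
  rw [e0]
  apply hM
  intro i
  obtain ⟨σ', hσ'⟩ := hconj τ (s i)
  have h1 := hrel τ (s i) σ' hσ'
  have h2 : acl (F := F) ρ (s i) (C τ) - C τ = ac ρ τ (c σ') - c (s i) := h1.symm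
  show acl (F := F) ρ (s i) (C τ) - C τ ∈ _
  rw [h2]
  -- `σ' = s i * u` with `u` near to `1`
  have hu : ∀ x ∈ S₂, ((s i)⁻¹ * σ') x = x := by
    intro x hx
    have h3 : τ (σ' x) = s i (τ x) := AlgEquiv.congr_fun hσ' x
    rw [hτ x (Or.inl (Or.inr hx))] at h3
    have h4 : τ (s i x) = s i x := hτ _ (Or.inr (Set.mem_iUnion.2 ⟨i, x, hx, rfl⟩))
    rw [← h4] at h3
    have h5 : σ' x = s i x := τ.injective h3
    show (s i)⁻¹ (σ' x) = x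
    rw [h5]
    show ((s i)⁻¹ * s i) x = x
    rw [inv_mul_cancel]
    rfl
  have h3 := hc (s i) ((s i)⁻¹ * σ')
  rw [mul_inv_cancel_left] at h3
  have h4 := hS₂c _ hu
  have e1 : ac ρ τ (c σ') - c (s i) = (ac ρ τ (c (s i)) - c (s i)) +
      ac ρ τ (ac ρ (rH K F Ω (s i)) (c ((s i)⁻¹ * σ'))) := by
    rw [h3, map_add]
    abel
  rw [e1]
  refine (Lt d _).add_mem ?_ (ac_mem ρ _ (ac_mem ρ _ h4))
  exact Lt_anti (hn i) (ac_sub_mem ρ (hS₁ρ τ fun x hx => hτ x (Or.inl (Or.inl hx))) (hμ i))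

/-- The extension of an invariant class is bounded. -/
theorem bdd_C [Algebra.IsAlgebraic K Ω] {C : (Ω ≃ₐ[K] Ω) → Fin d → ℚ_[2]} (hC : IsCoG (ac ρ) C)
    (hn : Near fun τ => C τ ∈ Lt d 0) : ∃ m₀ : ℤ, ∀ τ, C τ ∈ Lt d m₀ := by
  obtain ⟨S, hS, hSC⟩ := hn
  haveI := hS.to_subtype
  let R : Set (S → Ω) := Set.range fun (τ : Ω ≃ₐ[K] Ω) (x : S) => τ x
  have hR : R.Finite := by
    apply (Set.Finite.pi' (t := fun x : S => ((minpoly K (x : Ω)).rootSet Ω)) (fun x =>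
      Polynomial.rootSet_finite _ _)).subset
    rintro _ ⟨τ, rfl⟩ x
    rw [Polynomial.mem_rootSet]
    refine ⟨minpoly.ne_zero (Algebra.IsIntegral.isIntegral _), ?_⟩
    show Polynomial.aeval (τ (x : Ω)) (minpoly K (x : Ω)) = 0
    have h1 : Polynomial.aeval (τ (x : Ω)) (minpoly K (x : Ω)) =
        τ (Polynomial.aeval (x : Ω) (minpoly K (x : Ω))) :=
      Polynomial.aeval_algHom_apply (τ : Ω →ₐ[K] Ω) (x : Ω) (minpoly K (x : Ω))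
    rw [h1, minpoly.aeval, map_zero]
  haveI := hR.to_subtype
  haveI := Fintype.ofFinite R
  choose g hg using fun f : R => f.2
  choose μ hμ using fun f : R => exists_mem_Lt (C (g f))
  obtain ⟨m₀, hm₀, hm₀'⟩ : ∃ m₀ : ℤ, m₀ ≤ 0 ∧ ∀ f, m₀ ≤ μ f := by
    refine ⟨-∑ f, ((μ f).natAbs : ℤ), ?_, fun f => ?_⟩
    · have : 0 ≤ ∑ f, ((μ f).natAbs : ℤ) := Finset.sum_nonneg fun _ _ => by positivity
      omega
    · have h1 : ((μ f).natAbs : ℤ) ≤ ∑ f, ((μ f).natAbs : ℤ) :=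
        Finset.single_le_sum (f := fun f => ((μ f).natAbs : ℤ)) (fun _ _ => by positivity)
          (Finset.mem_univ f)
      omega
  refine ⟨m₀, fun τ => ?_⟩
  let f : R := ⟨fun x => τ x, τ, rfl⟩
  have h1 := hC (g f) ((g f)⁻¹ * τ)
  rw [mul_inv_cancel_left] at h1
  rw [h1]
  refine (Lt d _).add_mem (Lt_anti (hm₀' f) (hμ f)) (ac_mem ρ _ (Lt_anti hm₀ (hSC _ ?_)))
  intro x hx
  have h2 : g f x = τ x := congrFun (hg f) ⟨x, hx⟩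
  show (g f)⁻¹ (τ x) = x
  rw [← h2]
  show ((g f)⁻¹ * g f) x = x
  rw [inv_mul_cancel]
  rfl

end gal

end Pool.Agent.Helper55.UV
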