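import Pool.Agent.Helper55.TT.Pl
import Pool.Agent.Helper55.UV.Ext

/-!
# The criterion for representations
-/

set_option autoImplicit false
set_option linter.all false

open Polynomial IsDedekindDomain
open scoped Classical

namespace Pool.Agent.Helper55.UV

open Pool.Agent.TH115.GD Pool.Agent.R939.EI Pool.Agent.Helper55.TT

section defs

variable {K F : Type} [Field K] [Field F] [Algebra K F]

/-- `ρ` is not ramified at the place `v` of `F = k'(t)`: it is trivial on the image of the Galois group of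
the completion `F_v`, for each embedding of the separable closures. -/
def Unram (k' : Type) [Field k'] [Algebra k'[X] F] [IsFractionRing k'[X] F] {d : ℕ}
    (ρ : (Sep F ≃ₐ[K] Sep F) →* GL (Fin d) ℤ_[2]) (v : HeightOneSpectrum k'[X]) : Prop :=
  ∀ (ι : Sep F →ₐ[F] Sep (Comp k'[X] F v)) (σ : Sep F ≃ₐ[F] Sep F),
    InI (Comp k'[X] F v) ι σ → ρ (σ.restrictScalars K) = 1

/-- The inertia group at the place `v` of `F = k'(t)` has no nonzero invariants in `ℚ₂ ^ d`. -/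
def NoInv (k' : Type) [Field k'] [Algebra k'[X] F] [IsFractionRing k'[X] F] {d : ℕ}
    (ρ : (Sep F ≃ₐ[K] Sep F) →* GL (Fin d) ℤ_[2]) (v : HeightOneSpectrum k'[X]) : Prop :=
  ∀ (ι : Sep F →ₐ[F] Sep (Comp k'[X] F v)) (y : Fin d → ℚ_[2]),
    (∀ σ : Sep F ≃ₐ[F] Sep F, InI (Comp k'[X] F v) ι σ → ac ρ (σ.restrictScalars K) y = y) → y = 0

/-- The restriction of `c` to the Galois group of the completion `F_v` is a coboundary. -/
def LocCob (k' : Type) [Field k'] [Algebra k'[X] F] [IsFractionRing k'[X] F] {d : ℕ}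
    (ρ : (Sep F ≃ₐ[K] Sep F) →* GL (Fin d) ℤ_[2]) (c : (Sep F ≃ₐ[F] Sep F) → Fin d → ℚ_[2])
    (v : HeightOneSpectrum k'[X]) : Prop :=
  ∃ (ι : Sep F →ₐ[F] Sep (Comp k'[X] F v)) (y : Fin d → ℚ_[2]),
    ∀ σ : Sep F ≃ₐ[F] Sep F, InI (Comp k'[X] F v) ι σ → c σ = ac ρ (σ.restrictScalars K) y - y

end defs

section core

variable {k k' K F : Type} [Field k] [Field k'] [Algebra k k'] [Field K] [Algebra k[X] K]
    [Field F] [Algebra k'[X] F] [IsFractionRing k'[X] F] [Algebra K F]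

/-- Square roots which are fixed by the inertia group. -/
theorem par_unram (v : HeightOneSpectrum k'[X]) (ι : Sep F →ₐ[F] Sep (Comp k'[X] F v)) {z : Sep F}
    {e : K} (hz : z ^ 2 = algebraMap K (Sep F) e)
    (h : ∀ σ : Sep F ≃ₐ[F] Sep F, InI (Comp k'[X] F v) ι σ → σ z = z) :
    par v (algebraMap K F e) = 0 := by
  have h1 : ι z ∈ Set.range (algebraMap (Comp k'[X] F v) (Sep (Comp k'[X] F v))) := by
    rw [InfiniteGalois.mem_range_algebraMap_iff_fixed]
    intro τ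
    obtain ⟨σ, hσ⟩ := exists_restrict (F := F) (Ω := Sep F) (L := Comp k'[X] F v)
      (Ω' := Sep (Comp k'[X] F v)) ι τ
    rw [hσ, h σ ⟨τ, hσ⟩]
  obtain ⟨t, ht⟩ := h1
  have h2 : algebraMap F (Comp k'[X] F v) (algebraMap K F e) = t ^ 2 := by
    apply inj_alg (E := Sep (Comp k'[X] F v))
    rw [← IsScalarTower.algebraMap_apply F (Comp k'[X] F v), map_pow, ht, ← map_pow, hz,
      IsScalarTower.algebraMap_apply K F (Sep F)]
    exact (ι.commutes _).symm
  rw [par_eq_zero, ← wFin v, h2]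
  exact ⟨Valued.v (R := v.adicCompletion F) (Γ₀ := WithZero (Multiplicative ℤ)) t,
    (Valuation.map_pow _ t 2).trans (pow_two _)⟩

theorem InD.inv' {v : HeightOneSpectrum k'[X]} {ι : Sep F →ₐ[F] Sep (Comp k'[X] F v)}
    {g : Sep F ≃ₐ[K] Sep F} (h : InD K (Comp k'[X] F v) ι g) :
    InD K (Comp k'[X] F v) ι g⁻¹ := by
  obtain ⟨G, γ, hG, hGι⟩ := h
  refine ⟨G.symm, γ.symm, fun x => ?_, fun x => ?_⟩
  · apply G.injective
    rw [AlgEquiv.apply_symm_apply, hG, RingEquiv.apply_symm_apply]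
  · apply G.injective
    rw [AlgEquiv.apply_symm_apply, hGι]
    show ι x = ι ((g * g⁻¹) x)
    rw [mul_inv_cancel]
    rfl

/-- **The criterion.** -/
theorem crit_abs (hT : IsTower k k' K F) (h2 : (2 : k) ≠ 0) {p π : k[X]} (hp : p ≠ 0)
    (hsep : ∀ q : k[X], Irreducible q → q ∣ p → q.Separable) (hπ : Irreducible π)
    (hπs : π.Separable) (hind : IndepAt π p) {d : ℕ}
    {ρ : (Sep F ≃ₐ[K] Sep F) →* GL (Fin d) ℤ_[2]} (hρ : Continuous ρ)
    (hp2 : ∀ σ, ∃ m : ℕ, ∀ i j, (2 : ℤ_[2]) ∣ ((ρ (σ ^ 2 ^ m)).1 - 1) i j)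
    (hun : ∀ v : HeightOneSpectrum k'[X], p.map (algebraMap k k') ∉ v.asIdeal → Unram k' ρ v)
    (hno : ∀ θ : k', aeval θ π = 0 → NoInv k' ρ (pl θ))
    {c : (Sep F ≃ₐ[F] Sep F) → Fin d → ℚ_[2]} (hcc : Continuous c)
    (hc : IsCo (rH K F (Sep F)) (ac ρ) c) (hci : IsInvt (rH K F (Sep F)) (ac ρ) c)
    (hloc : ∀ v : HeightOneSpectrum k'[X], p.map (algebraMap k k') ∉ v.asIdeal →
      LocCob k' ρ c v)
    (hlocπ : ∀ θ : k', aeval θ π = 0 → LocCob k' ρ c (pl θ)) :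
    ∃ y : Fin d → ℚ_[2], ∀ σ, c σ = ac ρ (σ.restrictScalars K) y - y := by
  haveI := hT.sep
  haveI := hT.fracK
  haveI : IsSepClosed k' := IsSepClosure.sep_closed k
  haveI : IsSepClosure K (Sep F) := sepKΩ hT.map
  haveI : Algebra.IsSeparable K (Sep F) := IsSepClosure.separable
  haveI : Algebra.IsSeparable F (Sep F) := IsSepClosure.separable
  haveI : IsGalois K (Sep F) := inferInstance
  have hKF := hT.map
  have hN : Preserves K F (Sep F) := preserves hKF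
  have h2Ω : (2 : Sep F) ≠ 0 := by
    rw [← map_ofNat (algebraMap K (Sep F)) 2]
    exact (_root_.map_ne_zero _).2 (tt h2)
  have h2n : (2 : ℝ) ^ (-((1 : ℕ) : ℤ)) = ((2 : ℕ) : ℝ) ^ (-((1 : ℕ) : ℤ)) := by norm_num
  have hp2' : ∀ σ, ∃ m : ℕ, ∀ i j, ‖((ρ (σ ^ 2 ^ m)).1 - 1) i j‖ ≤ (2 : ℝ) ^ (-((1 : ℕ) : ℤ)) := by
    intro σ
    obtain ⟨m, hm⟩ := hp2 σ
    refine ⟨m, fun i j => ?_⟩
    rw [h2n, PadicInt.norm_le_pow_iff_mem_span_pow, pow_one, Ideal.mem_span_singleton]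
    exact_mod_cast hm i j
  obtain ⟨θ, hθ⟩ := exists_root_sep (k' := k') hπ hπs
  obtain ⟨ι, y, hy⟩ := hlocπ θ hθ
  set I : Set (Sep F ≃ₐ[F] Sep F) := {σ | InI (Comp k'[X] F (pl θ)) ι σ} with hI
  have hVI : ∀ y : Fin d → ℚ_[2], (∀ σ ∈ I, ac ρ (rH K F (Sep F) σ) y = y) → y = 0 :=
    fun y hy => hno θ hθ ι y hy
  have hVN : ∀ y : Fin d → ℚ_[2], (∀ σ, ac ρ (rH K F (Sep F) σ) y = y) → y = 0 :=
    fun y hy => hVI y fun σ _ => hy σ
  have hconj : ∀ (τ : Sep F ≃ₐ[K] Sep F) (σ : Sep F ≃ₐ[F] Sep F), ∃ σ' : Sep F ≃ₐ[F] Sep F,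
      τ * rH K F (Sep F) σ' = rH K F (Sep F) σ * τ := by
    intro τ σ
    obtain ⟨σ', h⟩ := exists_conj hN τ σ
    exact ⟨σ', AlgEquiv.ext fun x => h x⟩
  obtain ⟨C, hC, hCr, hCrel⟩ := exists_ext rH_inj hconj hVN hc hci
  set C1 : (Sep F ≃ₐ[K] Sep F) → Fin d → ℚ_[2] := fun τ => C τ - (ac ρ τ y - y) with hC1
  have hC1m : IsCoG (ac ρ) C1 := hC.sub_cob y
  have hC1I : ∀ σ ∈ I, C1 (rH K F (Sep F) σ) = 0 := by
    intro σ hσ
    show C (rH K F (Sep F) σ) - (ac ρ (rH K F (Sep F) σ) y - y) = 0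
    rw [hCr, hy σ hσ]
    exact sub_self _
  have hC1D : ∀ g : Sep F ≃ₐ[K] Sep F, InD K (Comp k'[X] F (pl θ)) ι g → C1 g = 0 := by
    intro g hg
    apply hC1m.dec hC1I hVI
    intro σ hσ
    obtain ⟨σ', hσ'⟩ := hconj g σ
    refine ⟨σ', ?_, hσ'⟩
    refine (InD.inv' hg).conj hσ fun x => ?_
    have h1 : g (σ' (g⁻¹ x)) = σ (g (g⁻¹ x)) := AlgEquiv.congr_fun hσ' (g⁻¹ x)
    have h3 : g (g⁻¹ x) = x := by
      show (g * g⁻¹) x = x
      rw [mul_inv_cancel]
      rfl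
    rw [h3] at h1
    apply g.injective
    rw [h1]
    show σ x = (g * g⁻¹) (σ x)
    rw [mul_inv_cancel]
    rfl
  have hnear : ∀ m : ℤ, Near fun τ => C1 τ ∈ Lt d m := by
    intro m
    obtain ⟨S1, hS1, h1⟩ := near_C hρ hc hcc hconj hCrel hVI m
    obtain ⟨μ, hμ⟩ := exists_mem_Lt y
    obtain ⟨n, hn⟩ : ∃ n : ℕ, m ≤ μ + n := ⟨(m - μ).toNat, by have := Int.self_le_toNat (m - μ); omega⟩
    obtain ⟨S3, hS3, h3⟩ := near_rho hρ n
    refine ⟨S1 ∪ S3, hS1.union hS3, fun τ hτ => ?_⟩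
    exact (Lt d m).sub_mem (h1 τ fun x hx => hτ x (Or.inl hx))
      (Lt_anti hn (ac_sub_mem ρ (h3 τ fun x hx => hτ x (Or.inr hx)) hμ))
  obtain ⟨m₀, hm₀⟩ := bdd_C hC1m (hnear 0)
  have hzero : ∀ σ, C1 σ = 0 := by
    refine desc_all hp2' hC1m hm₀ ?_
    intro m hm χ hχm hχ g
    obtain ⟨S, hS, hSC⟩ := hnear (m + 1)
    have hz2 : ∀ x : ZMod 2, x = 0 ∨ x = 1 := by decide
    have key := char_one hT h2 hp hsep hπ hind hθ ι
      (χ := fun g => if χ g = 0 then 1 else -1) (fun σ => by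
        show (if χ σ = 0 then (1 : Sep F) else -1) = 1 ∨ _ = -1
        split_ifs
        · exact Or.inl rfl
        · exact Or.inr rfl) (fun σ τ => by
        show (if χ (σ * τ) = 0 then (1 : Sep F) else -1) =
          (if χ σ = 0 then 1 else -1) * (if χ τ = 0 then 1 else -1)
        rw [hχm]
        rcases hz2 (χ σ) with h | h <;> rcases hz2 (χ τ) with h' | h' <;> rw [h, h'] <;> simp
        intro hne
        exact absurd (by decide) hne) hS (fun u hu => by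
        show (if χ u = 0 then (1 : Sep F) else -1) = 1
        rw [if_pos (hχ u (hSC u hu))]) ?_ (fun σ hσ => by
        show (if χ (σ.restrictScalars K) = 0 then (1 : Sep F) else -1) = 1
        rw [if_pos (hχ _ (by
          have h5 := hC1I σ hσ
          rw [rH_apply] at h5
          rw [h5]
          exact (Lt d _).zero_mem))]) (fun g hg => by
        show (if χ g = 0 then (1 : Sep F) else -1) = 1
        rw [if_pos (hχ _ (by rw [hC1D g hg]; exact (Lt d _).zero_mem))]) g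
    · by_contra hne
      simp only [if_neg hne] at key
      apply h2Ω
      have h3 : (1 : Sep F) + 1 = 0 := by
        nth_rewrite 1 [← key]
        ring
      rw [← h3]
      norm_num
    · intro z e z0 hz hσz v hv
      obtain ⟨ιv, yv, hyv⟩ := hloc v hv
      refine par_unram v ιv hz fun σ hσ => ?_
      have h5 : C1 (rH K F (Sep F) σ) = 0 := by
        show C (rH K F (Sep F) σ) - (ac ρ (rH K F (Sep F) σ) y - y) = 0
        have h6 : ρ (rH K F (Sep F) σ) = 1 := hun v hv ιv σ hσ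
        have h7 : ∀ x, ac ρ (rH K F (Sep F) σ) x = x := by
          intro x
          rw [ac_apply, h6, Units.val_one, Matrix.map_one _ (map_zero _) (map_one _),
            Matrix.one_mulVec]
        rw [hCr, hyv σ hσ, ← rH_apply, h7, h7, sub_self, sub_self, sub_zero]
      have h8 : χ (σ.restrictScalars K) = 0 := hχ _ (by
        rw [rH_apply] at h5
        rw [h5]
        exact (Lt d _).zero_mem)
      have h9 := hσz σ
      simp only [if_pos h8, one_mul] at h9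
      exact h9
  refine ⟨y, fun σ => ?_⟩
  have h5 := hzero (rH K F (Sep F) σ)
  have h6 : C (rH K F (Sep F) σ) - (ac ρ (rH K F (Sep F) σ) y - y) = 0 := h5
  rw [hCr, sub_eq_zero] at h6
  exact h6

end core

end Pool.Agent.Helper55.UV
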