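import Mathlib

/-!
# Cocycles on a group and a normal subgroup: algebra
-/

set_option autoImplicit false
set_option linter.all false

open scoped Classical

namespace Pool.Agent.Helper55.UV

section ext

variable {Γ N V : Type} [Group Γ] [Group N] [AddCommGroup V] (r : N →* Γ)
  (ρ : Γ →* AddMonoid.End V)

/-- crossed homomorphisms on `N` -/
def IsCo (c : N → V) : Prop := ∀ σ τ, c (σ * τ) = c σ + ρ (r σ) (c τ)

/-- crossed homomorphisms on `Γ` -/
def IsCoG (C : Γ → V) : Prop := ∀ σ τ, C (σ * τ) = C σ + ρ σ (C τ)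

/-- the class of `c` is fixed by `Γ` -/
def IsInvt (c : N → V) : Prop := ∀ τ : Γ, ∃ y : V, ∀ σ σ' : N, τ * r σ' = r σ * τ →
  ρ τ (c σ') - c σ = ρ (r σ) y - y

variable {r ρ}

theorem mul_act (σ τ : Γ) (x : V) : ρ (σ * τ) x = ρ σ (ρ τ x) := by rw [map_mul]; rfl

theorem exists_ext (hr : Function.Injective r)
    (hconj : ∀ (τ : Γ) (σ : N), ∃ σ' : N, τ * r σ' = r σ * τ)
    (hV : ∀ y : V, (∀ σ : N, ρ (r σ) y = y) → y = 0) {c : N → V} (hc : IsCo r ρ c)
    (hi : IsInvt r ρ c) :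
    ∃ C : Γ → V, IsCoG ρ C ∧ (∀ σ, C (r σ) = c σ) ∧
      ∀ τ (σ σ' : N), τ * r σ' = r σ * τ → ρ τ (c σ') - c σ = ρ (r σ) (C τ) - C τ := by
  choose C hC using hi
  have huniq : ∀ (τ : Γ) (y y' : V), (∀ σ σ' : N, τ * r σ' = r σ * τ →
      ρ τ (c σ') - c σ = ρ (r σ) y - y) → (∀ σ σ' : N, τ * r σ' = r σ * τ →
      ρ τ (c σ') - c σ = ρ (r σ) y' - y') → y = y' := by
    intro τ y y' h h'
    rw [← sub_eq_zero]
    apply hV
    intro σ
    obtain ⟨σ', hσ'⟩ := hconj τ σ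
    have e1 := h σ σ' hσ'
    have e2 := h' σ σ' hσ'
    rw [e1] at e2
    rw [map_sub]
    have e3 : ρ (r σ) y = ρ (r σ) y' - y' + y := by rw [← e2]; abel
    rw [e3]; abel
  refine ⟨C, ?_, ?_, hC⟩
  · intro σ τ
    refine huniq (σ * τ) _ _ (hC _) ?_
    intro n n' hn
    obtain ⟨n'', hn''⟩ := hconj σ n
    have h2 : τ * r n' = r n'' * τ := by
      apply mul_left_cancel (a := σ)
      rw [← mul_assoc, hn, ← mul_assoc σ, hn'', mul_assoc]
    have e1 := hC σ n n'' hn''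
    have e2 := hC τ n'' n' h2
    have e4 : ρ σ (ρ (r n'') (C τ)) = ρ (r n) (ρ σ (C τ)) := by
      rw [← mul_act, ← mul_act, hn'']
    have e5 : ρ τ (c n') = c n'' + (ρ (r n'') (C τ) - C τ) := by rw [← e2]; abel
    have e6 : ρ σ (c n'') = c n + (ρ (r n) (C σ) - C σ) := by rw [← e1]; abel
    rw [mul_act, e5, map_add, map_sub, e4, e6, map_add]
    abel
  · intro σ
    refine huniq (r σ) _ _ (hC _) ?_
    intro n n' hn
    have e0 : σ * n' = n * σ := hr (by rw [map_mul, map_mul, hn])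
    have e1 := hc σ n'
    have e2 := hc n σ
    rw [e0, e2] at e1
    have e4 : ρ (r σ) (c n') = c n + ρ (r n) (c σ) - c σ := by rw [e1]; abel
    rw [e4]; abel

/-- Change by a coboundary. -/
theorem IsCoG.sub_cob {C : Γ → V} (hC : IsCoG ρ C) (y : V) :
    IsCoG ρ (fun τ => C τ - (ρ τ y - y)) := by
  intro σ τ
  show C (σ * τ) - (ρ (σ * τ) y - y) = C σ - (ρ σ y - y) + ρ σ (C τ - (ρ τ y - y))
  rw [hC, mul_act, map_sub, map_sub]
  abel

theorem IsCoG.one {C : Γ → V} (hC : IsCoG ρ C) : C 1 = 0 := by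
  have h := hC 1 1
  rw [mul_one, map_one] at h
  have h2 : (1 : AddMonoid.End V) (C 1) = C 1 := rfl
  rw [h2] at h
  exact left_eq_add.1 h

/-- The decomposition group. -/
theorem IsCoG.dec {C : Γ → V} (hC : IsCoG ρ C) {I : Set N} (hI : ∀ σ ∈ I, C (r σ) = 0)
    (hVI : ∀ y : V, (∀ σ ∈ I, ρ (r σ) y = y) → y = 0) {g : Γ}
    (hg : ∀ σ ∈ I, ∃ σ' ∈ I, g * r σ' = r σ * g) : C g = 0 := by
  apply hVI
  intro σ hσ
  obtain ⟨σ', hσ', h⟩ := hg σ hσ
  have e1 := hC g (r σ')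
  have e2 := hC (r σ) g
  rw [hI σ' hσ', map_zero, add_zero] at e1
  rw [hI σ hσ, zero_add] at e2
  rw [← e2, ← h, e1]

end ext

section desc

variable {Γ V : Type} [Group Γ] [AddCommGroup V] {ρ : Γ →* AddMonoid.End V}

/-- A finite nonzero group of exponent two with an action of a group, such that the order of each
element acts as a power of two, has a nonzero invariant homomorphism to the group of order two. -/
theorem exists_inv_hom {M : Type} [AddCommGroup M] [Finite M] [Nontrivial M]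
    (h2 : ∀ x : M, x + x = 0) (a : Γ →* AddMonoid.End M)
    (hp : ∀ σ, ∃ m : ℕ, ∀ x, a (σ ^ 2 ^ m) x = x) :
    ∃ φ : M →+ ZMod 2, φ ≠ 0 ∧ ∀ σ x, φ (a σ x) = φ x := by
  haveI : Finite (M →+ ZMod 2) := Finite.of_injective (fun φ => (φ : M → ZMod 2))
    DFunLike.coe_injective
  -- the action on the homomorphisms
  let f : Γ →* Function.End (M →+ ZMod 2) :=
    { toFun := fun σ φ => φ.comp (a σ⁻¹)
      map_one' := by
        funext φ
        ext x
        show φ (a 1⁻¹ x) = φ x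
        rw [inv_one, map_one]
        rfl
      map_mul' := fun σ τ => by
        funext φ
        ext x
        show φ (a (σ * τ)⁻¹ x) = φ (a τ⁻¹ (a σ⁻¹ x))
        rw [mul_inv_rev, map_mul]
        rfl }
  let F : Γ →* Equiv.Perm (M →+ ZMod 2) := f.toHomPerm
  have hF : ∀ σ φ, F σ φ = φ.comp (a σ⁻¹) := fun σ φ => rfl
  have hG : IsPGroup 2 F.range := by
    rintro ⟨_, σ, rfl⟩
    obtain ⟨m, hm⟩ := hp σ
    refine ⟨m, Subtype.ext ?_⟩
    show (F σ) ^ 2 ^ m = 1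
    rw [← map_pow]
    ext φ x
    show φ (a (σ ^ 2 ^ m)⁻¹ x) = φ x
    congr 1
    have h1 : a (σ ^ 2 ^ m)⁻¹ (a (σ ^ 2 ^ m) x) = x := by
      have h3 : a ((σ ^ 2 ^ m)⁻¹ * σ ^ 2 ^ m) x = x := by rw [inv_mul_cancel, map_one]; rfl
      rw [map_mul] at h3
      exact h3
    rw [hm] at h1
    exact h1
  -- the number of homomorphisms
  letI : Module (ZMod 2) M := AddCommGroup.zmodModule (n := 2) (fun x => by
    rw [two_nsmul]; exact h2 x)
  obtain ⟨x, hx⟩ := exists_ne (0 : M)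
  obtain ⟨ψ, hψ⟩ : ∃ ψ : M →+ ZMod 2, ψ ≠ 0 := by
    by_contra hcon
    push Not at hcon
    apply hx
    rw [← Module.forall_dual_apply_eq_zero_iff (ZMod 2)]
    intro g
    have h1 := hcon g.toAddMonoidHom
    exact DFunLike.congr_fun h1 x
  have hcard : 2 ∣ Nat.card (M →+ ZMod 2) := by
    have h1 : addOrderOf ψ = 2 := by
      refine addOrderOf_eq_prime ?_ hψ
      ext y
      show (2 : ℕ) • ψ y = 0
      rw [two_nsmul]
      have : ∀ z : ZMod 2, z + z = 0 := by decide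
      exact this _
    have h3 := addOrderOf_dvd_natCard ψ
    rwa [h1] at h3
  have h0 : (0 : M →+ ZMod 2) ∈ MulAction.fixedPoints F.range (M →+ ZMod 2) := by
    rintro ⟨_, σ, rfl⟩
    show (0 : M →+ ZMod 2).comp (a σ⁻¹) = 0
    ext y
    rfl
  obtain ⟨φ, hφ, hne⟩ := hG.exists_fixed_point_of_prime_dvd_card_of_fixed_point _ hcard h0
  refine ⟨φ, hne.symm, fun σ y => ?_⟩
  have h1 : φ.comp (a (σ⁻¹)⁻¹) = φ := hφ ⟨_, σ⁻¹, rfl⟩
  rw [inv_inv] at h1
  exact DFunLike.congr_fun h1 y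

end desc

end Pool.Agent.Helper55.UV
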