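import Pool.Agent.Helper55.UV.Alg

/-!
# Lattices and descent
-/

set_option autoImplicit false
set_option linter.all false

open scoped Classical

namespace Pool.Agent.Helper55.UV

section index

variable {Γ V : Type} [Group Γ] [AddCommGroup V] {A : Γ →* AddMonoid.End V} {C : Γ → V}

theorem desc_aux (hC : IsCoG A C) {T0 T1 : AddSubgroup V} (h2 : ∀ v ∈ T0, v + v ∈ T1)
    (hs1 : ∀ σ, ∀ v ∈ T1, A σ v ∈ T1)
    (hp : ∀ σ, ∃ m : ℕ, ∀ v ∈ T0, A (σ ^ 2 ^ m) v - v ∈ T1)
    (hchar : ∀ χ : Γ → ZMod 2, (∀ σ τ, χ (σ * τ) = χ σ + χ τ) → (∀ σ, C σ ∈ T1 → χ σ = 0) →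
      ∀ σ, χ σ = 0) :
    ∀ (n : ℕ) (T : AddSubgroup V), T1 ≤ T → T ≤ T0 → (∀ σ, ∀ v ∈ T, A σ v ∈ T) →
      T1.relIndex T = n → n ≠ 0 → (∀ σ, C σ ∈ T) → ∀ σ, C σ ∈ T1 := by
  intro n
  induction n using Nat.strong_induction_on with
  | _ n ih =>
    intro T h1T hT0 hs hn hn0 hCT
    by_cases h1 : n = 1
    · rw [h1, AddSubgroup.relIndex_eq_one] at hn
      exact fun σ => hn (hCT σ)
    -- the quotient
    let M := T ⧸ T1.addSubgroupOf T
    haveI hfin : Finite M := by
      have : (T1.addSubgroupOf T).index ≠ 0 := by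
        show T1.relIndex T ≠ 0
        rw [hn]; exact hn0
      haveI : (T1.addSubgroupOf T).FiniteIndex := ⟨this⟩
      exact AddSubgroup.finite_quotient_of_finiteIndex
    haveI hnt : Nontrivial M := by
      by_contra hcon
      rw [not_nontrivial_iff_subsingleton] at hcon
      apply h1
      rw [← hn]
      show Nat.card M = 1
      exact Nat.card_eq_one_iff_unique.2 ⟨hcon, ⟨0⟩⟩
    -- the action
    let f : Γ → T →+ T := fun σ =>
      { toFun := fun v => ⟨A σ v, hs σ v v.2⟩
        map_zero' := Subtype.ext (map_zero _)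
        map_add' := fun x y => Subtype.ext (map_add _ _ _) }
    have hf : ∀ σ, T1.addSubgroupOf T ≤ (T1.addSubgroupOf T).comap (f σ) := by
      intro σ x hx
      exact hs1 σ _ hx
    let a : Γ →* AddMonoid.End M :=
      { toFun := fun σ => QuotientAddGroup.map _ _ (f σ) (hf σ)
        map_one' := by
          ext x
          obtain ⟨x, rfl⟩ := QuotientAddGroup.mk_surjective x
          show ((f 1 x : T) : M) = ((x : T) : M)
          have : f 1 x = x := by
            apply Subtype.ext
            show A 1 (x : V) = x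
            rw [map_one]
            rfl
          rw [this]
        map_mul' := fun σ τ => by
          ext x
          obtain ⟨x, rfl⟩ := QuotientAddGroup.mk_surjective x
          show ((f (σ * τ) x : T) : M) = ((f σ (f τ x) : T) : M)
          have : f (σ * τ) x = f σ (f τ x) := by
            apply Subtype.ext
            show A (σ * τ) (x : V) = A σ (A τ x)
            rw [map_mul]
            rfl
          rw [this] }
    have ha : ∀ σ (x : T), a σ (x : M) = ((f σ x : T) : M) := fun σ x => rfl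
    obtain ⟨φ, hφ, hφa⟩ := exists_inv_hom (M := M) (by
      intro x
      obtain ⟨x, rfl⟩ := QuotientAddGroup.mk_surjective x
      have h3 : ((x : T) : M) + ((x : T) : M) = ((x + x : T) : M) := rfl
      rw [h3, QuotientAddGroup.eq_zero_iff]
      exact h2 _ (hT0 x.2)) a (by
      intro σ
      obtain ⟨m, hm⟩ := hp σ
      refine ⟨m, fun x => ?_⟩
      obtain ⟨x, rfl⟩ := QuotientAddGroup.mk_surjective x
      show ((f (σ ^ 2 ^ m) x : T) : M) = ((x : T) : M)
      rw [← sub_eq_zero]
      have h3 : ((f (σ ^ 2 ^ m) x : T) : M) - ((x : T) : M) = ((f (σ ^ 2 ^ m) x - x : T) : M) := rfl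
      rw [h3, QuotientAddGroup.eq_zero_iff]
      exact hm _ (hT0 x.2))
    -- the homomorphism of `Γ`
    have hχ : ∀ σ, φ ((⟨C σ, hCT σ⟩ : T) : M) = 0 := by
      refine hchar (fun σ => φ ((⟨C σ, hCT σ⟩ : T) : M)) ?_ ?_
      · intro σ τ
        have e : ((⟨C (σ * τ), hCT (σ * τ)⟩ : T) : M) =
            ((⟨C σ, hCT σ⟩ : T) : M) + a σ ((⟨C τ, hCT τ⟩ : T) : M) := by
          rw [ha]
          have : (⟨C (σ * τ), hCT (σ * τ)⟩ : T) = ⟨C σ, hCT σ⟩ + f σ ⟨C τ, hCT τ⟩ :=
            Subtype.ext (hC σ τ)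
          rw [this]
          rfl
        show φ _ = φ _ + φ _
        rw [e, map_add, hφa]
      · intro σ hσ
        have : ((⟨C σ, hCT σ⟩ : T) : M) = 0 := by
          rw [QuotientAddGroup.eq_zero_iff]
          exact hσ
        show φ _ = 0
        rw [this, map_zero]
    -- the smaller group
    let T' : AddSubgroup V := (AddMonoidHom.ker (φ.comp (QuotientAddGroup.mk' _))).map T.subtype
    have hT' : ∀ v, v ∈ T' ↔ ∃ h : v ∈ T, φ ((⟨v, h⟩ : T) : M) = 0 := by
      intro v
      constructor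
      · rintro ⟨w, hw, rfl⟩
        exact ⟨w.2, hw⟩
      · rintro ⟨h, h3⟩
        exact ⟨⟨v, h⟩, h3, rfl⟩
    have h1T' : T1 ≤ T' := by
      intro v hv
      rw [hT']
      refine ⟨h1T hv, ?_⟩
      have : ((⟨v, h1T hv⟩ : T) : M) = 0 := by
        rw [QuotientAddGroup.eq_zero_iff]
        exact hv
      rw [this, map_zero]
    have hT'T : T' ≤ T := by
      intro v hv
      exact ((hT' v).1 hv).1
    have hmul : T1.relIndex T' * T'.relIndex T = T1.relIndex T := AddSubgroup.relIndex_mul_relIndex _ _ _ h1T' hT'T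
    have hne : T'.relIndex T ≠ 1 := by
      rw [Ne, AddSubgroup.relIndex_eq_one]
      intro hle
      apply hφ
      ext x
      exact ((hT' _).1 (hle x.2)).2
    rw [hn] at hmul
    have hpos : T1.relIndex T' ≠ 0 := by
      intro h0
      rw [h0, zero_mul] at hmul
      exact hn0 hmul.symm
    have hpos' : T'.relIndex T ≠ 0 := by
      intro h0
      rw [h0, mul_zero] at hmul
      exact hn0 hmul.symm
    refine ih (T1.relIndex T') ?_ T' h1T' (hT'T.trans hT0) ?_ rfl hpos ?_
    · rw [← hmul]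
      have h5 : 2 ≤ T'.relIndex T := by omega
      nlinarith [Nat.pos_of_ne_zero hpos]
    · intro σ v hv
      rw [hT'] at hv ⊢
      obtain ⟨h, h3⟩ := hv
      refine ⟨hs σ v h, ?_⟩
      have h5 := hφa σ ((⟨v, h⟩ : T) : M)
      rw [h3] at h5
      exact h5
    · intro σ
      rw [hT']
      exact ⟨hCT σ, hχ σ⟩

end index

end Pool.Agent.Helper55.UV
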