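import Pool.Agent.Helper55.UV.Desc

/-!
# The lattices `2 ^ m ℤ₂ ^ d` and representations in `GL_d(ℤ₂)`
-/

set_option autoImplicit false
set_option linter.all false

open scoped Classical

namespace Pool.Agent.Helper55.UV

section lat

variable {d : ℕ}

/-- the lattice `2 ^ m ℤ₂ ^ d` -/
def Lt (d : ℕ) (m : ℤ) : AddSubgroup (Fin d → ℚ_[2]) where
  carrier := {v | ∀ i, ‖v i‖ ≤ (2 : ℝ) ^ (-m)}
  zero_mem' := fun i => by
    show ‖(0 : ℚ_[2])‖ ≤ _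
    rw [norm_zero]
    positivity
  add_mem' := fun {a b} ha hb i => by
    show ‖a i + b i‖ ≤ _
    exact (Padic.nonarchimedean _ _).trans (max_le (ha i) (hb i))
  neg_mem' := fun {a} ha i => by
    show ‖-(a i)‖ ≤ _
    rw [norm_neg]
    exact ha i

theorem mem_Lt {m : ℤ} {v : Fin d → ℚ_[2]} : v ∈ Lt d m ↔ ∀ i, ‖v i‖ ≤ (2 : ℝ) ^ (-m) := Iff.rfl

theorem mem_Lt_norm {m : ℤ} {v : Fin d → ℚ_[2]} : v ∈ Lt d m ↔ ‖v‖ ≤ (2 : ℝ) ^ (-m) := by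
  rw [mem_Lt, pi_norm_le_iff_of_nonneg (by positivity)]

theorem Lt_anti {m m' : ℤ} (h : m ≤ m') : Lt d m' ≤ Lt d m := by
  intro v hv i
  exact (hv i).trans (zpow_le_zpow_right₀ (by norm_num) (by omega))

theorem norm_two : ‖(2 : ℚ_[2])‖ = (2 : ℝ)⁻¹ := by
  have := Padic.norm_p (p := 2)
  exact_mod_cast this

theorem double_mem {m : ℤ} {v : Fin d → ℚ_[2]} (h : v ∈ Lt d m) : v + v ∈ Lt d (m + 1) := by
  intro i
  show ‖v i + v i‖ ≤ _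
  rw [← two_mul, norm_mul, norm_two, neg_add, zpow_add₀ (by norm_num), zpow_neg_one, mul_comm]
  exact mul_le_mul_of_nonneg_right (h i) (by norm_num)

theorem exists_mem_Lt (v : Fin d → ℚ_[2]) : ∃ m : ℤ, v ∈ Lt d m := by
  obtain ⟨n, hn⟩ := pow_unbounded_of_one_lt ‖v‖ (show (1 : ℝ) < 2 by norm_num)
  refine ⟨-n, ?_⟩
  rw [mem_Lt_norm, neg_neg, zpow_natCast]
  exact hn.le

theorem eq_zero_of_mem {v : Fin d → ℚ_[2]} {m₀ : ℤ} (h : ∀ m, m₀ ≤ m → v ∈ Lt d m) : v = 0 := by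
  rw [← norm_eq_zero]
  by_contra hne
  have hpos : 0 < ‖v‖ := lt_of_le_of_ne (norm_nonneg _) (Ne.symm hne)
  obtain ⟨n, hn⟩ := pow_unbounded_of_one_lt (‖v‖)⁻¹ (show (1 : ℝ) < 2 by norm_num)
  have h1 := mem_Lt_norm.1 (h (max m₀ n) (le_max_left _ _))
  have h2 : (2 : ℝ) ^ (-(max m₀ (n : ℤ))) ≤ (2 : ℝ) ^ (-(n : ℤ)) :=
    zpow_le_zpow_right₀ (by norm_num) (by have := le_max_right m₀ (n : ℤ); omega)
  have h3 : (2 : ℝ) ^ (-(n : ℤ)) < ‖v‖ := by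
    rw [zpow_neg, zpow_natCast]
    exact inv_lt_of_inv_lt₀ hpos hn
  linarith

/-- linear maps are bounded -/
theorem bounded {e : ℕ} (Ψ : (Fin e → Fin d → ℚ_[2]) →ₗ[ℚ_[2]] (Fin d → ℚ_[2])) :
    ∃ M : ℕ, ∀ (m : ℤ) (w : Fin e → Fin d → ℚ_[2]), (∀ j, w j ∈ Lt d m) →
      Ψ w ∈ Lt d (m - M) := by
  obtain ⟨C, hC⟩ := Ψ.toContinuousLinearMap.isBoundedLinearMap.bound
  obtain ⟨n, hn⟩ := pow_unbounded_of_one_lt C (show (1 : ℝ) < 2 by norm_num)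
  refine ⟨n, fun m w hw => ?_⟩
  rw [mem_Lt_norm]
  have h1 : ‖w‖ ≤ (2 : ℝ) ^ (-m) := by
    rw [pi_norm_le_iff_of_nonneg (by positivity)]
    exact fun j => mem_Lt_norm.1 (hw j)
  have h2 : ‖Ψ w‖ ≤ C * ‖w‖ := hC.2 w
  refine h2.trans ?_
  have h3 : (2 : ℝ) ^ (-(m - n)) = 2 ^ n * (2 : ℝ) ^ (-m) := by
    rw [neg_sub, sub_eq_add_neg, zpow_add₀ (by norm_num), zpow_natCast]
  rw [h3]
  exact mul_le_mul hn.le h1 (norm_nonneg _) (by positivity)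

/-- an element of norm at most one as an element of `ℤ₂` -/
def zi (x : ℚ_[2]) (h : ‖x‖ ≤ 1) : ℤ_[2] := ⟨x, h⟩

theorem zi_coe (x : ℚ_[2]) (h : ‖x‖ ≤ 1) : ((zi x h : ℤ_[2]) : ℚ_[2]) = x := rfl

theorem relIndex_ne (m : ℤ) : (Lt d (m + 1)).relIndex (Lt d m) ≠ 0 := by
  have h2 : (2 : ℚ_[2]) ≠ 0 := two_ne_zero
  have hn : ∀ v : Lt d m, ∀ i, ‖(2 : ℚ_[2]) ^ (-m) * v.1 i‖ ≤ 1 := by
    intro v i
    rw [norm_mul, norm_zpow, norm_two, inv_zpow, ← zpow_neg, neg_neg]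
    have h3 := v.2 i
    calc (2 : ℝ) ^ m * ‖v.1 i‖ ≤ (2 : ℝ) ^ m * (2 : ℝ) ^ (-m) :=
        mul_le_mul_of_nonneg_left h3 (by positivity)
      _ = 1 := by rw [← zpow_add₀ (by norm_num), add_neg_cancel, zpow_zero]
  let f : Lt d m →+ (Fin d → ZMod 2) :=
    { toFun := fun v i => PadicInt.toZMod (zi ((2 : ℚ_[2]) ^ (-m) * v.1 i) (hn v i))
      map_zero' := by
        funext i
        have : zi ((2 : ℚ_[2]) ^ (-m) * (0 : Lt d m).1 i) (hn 0 i) = 0 := by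
          apply PadicInt.ext
          rw [zi_coe]
          show (2 : ℚ_[2]) ^ (-m) * 0 = 0
          rw [mul_zero]
        show PadicInt.toZMod (zi _ _) = 0
        rw [this, map_zero]
      map_add' := fun x y => by
        funext i
        have : zi ((2 : ℚ_[2]) ^ (-m) * (x + y : Lt d m).1 i) (hn (x + y) i) =
            zi ((2 : ℚ_[2]) ^ (-m) * x.1 i) (hn x i) + zi ((2 : ℚ_[2]) ^ (-m) * y.1 i) (hn y i) := by
          apply PadicInt.ext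
          rw [PadicInt.coe_add, zi_coe, zi_coe, zi_coe]
          show (2 : ℚ_[2]) ^ (-m) * (x.1 i + y.1 i) = _
          rw [mul_add]
        show PadicInt.toZMod (zi _ _) = PadicInt.toZMod (zi _ _) + PadicInt.toZMod (zi _ _)
        rw [this, map_add] }
  have hk : f.ker ≤ (Lt d (m + 1)).addSubgroupOf (Lt d m) := by
    intro v hv i
    have h3 : PadicInt.toZMod (zi ((2 : ℚ_[2]) ^ (-m) * v.1 i) (hn v i)) = 0 := congrFun hv i
    rw [← RingHom.mem_ker, PadicInt.ker_toZMod, PadicInt.maximalIdeal_eq_span_p,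
      Ideal.mem_span_singleton, ← PadicInt.norm_lt_one_iff_dvd] at h3
    have h4 : ‖(2 : ℚ_[2]) ^ (-m) * v.1 i‖ < 1 := h3
    have h5 : ‖(2 : ℚ_[2]) ^ (-m) * v.1 i‖ ≤ (2 : ℝ)⁻¹ := by
      have h6 := (Padic.norm_lt_pow_iff_norm_le_pow_sub_one (p := 2)
        ((2 : ℚ_[2]) ^ (-m) * v.1 i) 0)
      have h7 := h6.1 (by rw [zpow_zero]; exact h4)
      rw [zero_sub, zpow_neg_one] at h7
      exact_mod_cast h7
    rw [norm_mul, norm_zpow, norm_two, inv_zpow, ← zpow_neg, neg_neg] at h5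
    show ‖v.1 i‖ ≤ _
    rw [neg_add, zpow_add₀ (by norm_num), zpow_neg_one]
    have h8 : (0 : ℝ) < (2 : ℝ) ^ m := by positivity
    rw [zpow_neg, ← div_eq_inv_mul, le_div_iff₀ h8, mul_comm]
    exact h5
  have h1 : f.ker.index ≠ 0 := by
    rw [AddSubgroup.index_ker]
    exact Nat.card_pos.ne'
  intro h0
  apply h1
  have h3 := AddSubgroup.index_dvd_of_le hk
  have h4 : ((Lt d (m + 1)).addSubgroupOf (Lt d m)).index = 0 := h0
  rw [h4] at h3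
  exact Nat.eq_zero_of_zero_dvd h3

end lat

section rep

variable {Γ : Type} [Group Γ] {d : ℕ}

/-- The action on `ℚ₂ ^ d` of a group with a homomorphism to `GL_d(ℤ₂)`. -/
noncomputable def ac (ρ : Γ →* GL (Fin d) ℤ_[2]) : Γ →* AddMonoid.End (Fin d → ℚ_[2]) where
  toFun σ := (Matrix.mulVecLin ((ρ σ).1.map (algebraMap ℤ_[2] ℚ_[2]))).toAddMonoidHom
  map_one' := by
    ext v i
    show ((ρ 1).1.map (algebraMap ℤ_[2] ℚ_[2])).mulVec v i = v i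
    rw [map_one, Units.val_one, Matrix.map_one _ (map_zero _) (map_one _), Matrix.one_mulVec]
  map_mul' σ τ := by
    ext v i
    show ((ρ (σ * τ)).1.map (algebraMap ℤ_[2] ℚ_[2])).mulVec v i =
      ((ρ σ).1.map (algebraMap ℤ_[2] ℚ_[2])).mulVec
        (((ρ τ).1.map (algebraMap ℤ_[2] ℚ_[2])).mulVec v) i
    rw [map_mul, Units.val_mul, Matrix.map_mul, Matrix.mulVec_mulVec]

theorem ac_apply (ρ : Γ →* GL (Fin d) ℤ_[2]) (σ : Γ) (v : Fin d → ℚ_[2]) :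
    ac ρ σ v = ((ρ σ).1.map (algebraMap ℤ_[2] ℚ_[2])).mulVec v := rfl

theorem mulVec_mem {M : Matrix (Fin d) (Fin d) ℤ_[2]} {n : ℕ} (hM : ∀ i j, ‖M i j‖ ≤ (2 : ℝ) ^ (-(n : ℤ)))
    {m : ℤ} {v : Fin d → ℚ_[2]} (hv : v ∈ Lt d m) :
    (M.map (algebraMap ℤ_[2] ℚ_[2])).mulVec v ∈ Lt d (m + n) := by
  intro i
  show ‖∑ j, (algebraMap ℤ_[2] ℚ_[2]) (M i j) * v j‖ ≤ _
  refine IsUltrametricDist.norm_sum_le_of_forall_le_of_nonneg (by positivity) ?_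
  intro j _
  rw [norm_mul, neg_add, zpow_add₀ (by norm_num), mul_comm]
  exact mul_le_mul (hv j) (hM i j) (norm_nonneg _) (by positivity)

theorem ac_mem (ρ : Γ →* GL (Fin d) ℤ_[2]) (σ : Γ) {m : ℤ} {v : Fin d → ℚ_[2]}
    (hv : v ∈ Lt d m) : ac ρ σ v ∈ Lt d m := by
  have := mulVec_mem (n := 0) (M := (ρ σ).1) (fun i j => by
    rw [Nat.cast_zero, neg_zero, zpow_zero]
    exact PadicInt.norm_le_one _) hv
  rwa [Nat.cast_zero, add_zero] at this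

theorem ac_sub_mem (ρ : Γ →* GL (Fin d) ℤ_[2]) {σ : Γ} {n : ℕ}
    (h : ∀ i j, ‖((ρ σ).1 - 1) i j‖ ≤ (2 : ℝ) ^ (-(n : ℤ)))
    {m : ℤ} {v : Fin d → ℚ_[2]} (hv : v ∈ Lt d m) : ac ρ σ v - v ∈ Lt d (m + n) := by
  have := mulVec_mem (M := (ρ σ).1 - 1) h hv
  have e : (((ρ σ).1 - 1).map (algebraMap ℤ_[2] ℚ_[2])).mulVec v = ac ρ σ v - v := by
    rw [Matrix.map_sub _ (fun a b => map_sub _ a b), Matrix.sub_mulVec,
      Matrix.map_one _ (map_zero _) (map_one _), Matrix.one_mulVec, ac_apply]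
  rwa [e] at this

end rep

end Pool.Agent.Helper55.UV
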